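import Mathlib

set_option autoImplicit false

namespace Pool.Agent.Results.MP_64d5df_nt.ATranslateDrop

/-- The distance from `x` to the nearest integer. -/
noncomputable def nint (x : ℝ) : ℝ := |x - round x|

/-- The loneliness gap of a finite set of speeds: the supremum over real `t` of the minimum
over `v ∈ V` of the distance from `t v` to the nearest integer. -/
noncomputable def kappa (V : Finset ℕ) : ℝ :=
  ⨆ t : ℝ, ⨅ v : V, nint (t * (v : ℕ))

lemma nint_nonneg (x : ℝ) : 0 ≤ nint x := abs_nonneg _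

lemma nint_le (x : ℝ) (m : ℤ) : nint x ≤ |x - m| := round_le x m

lemma inf_le (V : Finset ℕ) (t : ℝ) {v : ℕ} (hv : v ∈ V) :
    ⨅ v : V, nint (t * (v : ℕ)) ≤ nint (t * v) :=
  ciInf_le (f := fun v : V => nint (t * (v : ℕ))) (Finite.bddBelow_range _) ⟨v, hv⟩

lemma two_three_five (t : ℝ) : nint (t * (2 : ℕ)) ≤ 3 / 10 ∨ nint (t * (3 : ℕ)) ≤ 3 / 10 ∨
    nint (t * (5 : ℕ)) ≤ 3 / 10 := by
  by_contra h
  push Not at h
  obtain ⟨h2, h3, h5⟩ := h
  have hf0 := Int.floor_le t
  have hf1 := Int.lt_floor_add_one t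
  generalize ⌊t⌋ = k at hf0 hf1
  have a0 := h2.trans_le (nint_le _ (2 * k))
  have a1 := h2.trans_le (nint_le _ (2 * k + 1))
  have a2 := h2.trans_le (nint_le _ (2 * k + 2))
  have b1 := h3.trans_le (nint_le _ (3 * k + 1))
  have b2 := h3.trans_le (nint_le _ (3 * k + 2))
  have c1 := h5.trans_le (nint_le _ (5 * k + 1))
  have c4 := h5.trans_le (nint_le _ (5 * k + 4))
  clear h2 h3 h5
  push_cast at a0 a1 a2 b1 b2 c1 c4
  rw [lt_abs] at a0 a1 a2 b1 b2 c1 c4
  rcases a0 with a0 | a0
  swap
  · linarith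
  rcases a2 with a2 | a2
  · linarith
  rcases a1 with a1 | a1
  · rcases b2 with b2 | b2
    · rcases c4 with c4 | c4 <;> linarith
    · linarith
  · rcases b1 with b1 | b1
    · linarith
    · rcases c1 with c1 | c1 <;> linarith

lemma third (v : ℕ) (hv : v % 3 ≠ 0) : 1 / 3 ≤ nint (1 / 3 * (v : ℝ)) := by
  unfold nint
  set m := round (1 / 3 * (v : ℝ))
  have h1 : (v : ℤ) - 3 * m ≠ 0 := by omega
  have h2 : (1 : ℝ) ≤ |(((v : ℤ) - 3 * m : ℤ) : ℝ)| := by
    exact_mod_cast Int.one_le_abs h1
  have h3 : 1 / 3 * (v : ℝ) - m = 1 / 3 * (((v : ℤ) - 3 * m : ℤ) : ℝ) := by push_cast; ring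
  rw [h3, abs_mul, abs_of_pos (by norm_num : (0 : ℝ) < 1 / 3)]
  linarith

/-- For every `n ≥ 3` there is a set `V` of `n` positive integers, containing `1` and `2`, whose
translate `1 + V` has a strictly smaller loneliness gap. -/
theorem result (n : ℕ) (hn : 3 ≤ n) : ∃ V : Finset ℕ, V.card = n ∧ (∀ v ∈ V, 0 < v) ∧
    1 ∈ V ∧ 2 ∈ V ∧ kappa (V.image fun v => 1 + v) < kappa V := by
  let g : ℕ → ℕ := fun i => 3 * (i / 2) + i % 2 + 1
  have hg : Function.Injective g := by
    intro a b h
    simp only [g] at h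
    omega
  have hmem : ∀ i, i < n → g i ∈ (Finset.range n).image g := fun i hi =>
    Finset.mem_image_of_mem g (Finset.mem_range.mpr hi)
  refine ⟨(Finset.range n).image g, by rw [Finset.card_image_of_injective _ hg, Finset.card_range],
    ?_, hmem 0 (by omega), hmem 1 (by omega), ?_⟩
  · intro v hv
    obtain ⟨i, -, rfl⟩ := Finset.mem_image.mp hv
    simp only [g]; omega
  · have hm : ∀ i, i < n → 1 + g i ∈ ((Finset.range n).image g).image fun v => 1 + v :=
      fun i hi => Finset.mem_image_of_mem _ (hmem i hi)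
    have h1 : kappa (((Finset.range n).image g).image fun v => 1 + v) ≤ 3 / 10 := by
      refine ciSup_le fun t => ?_
      rcases two_three_five t with h | h | h
      · exact (inf_le _ t (hm 0 (by omega))).trans h
      · exact (inf_le _ t (hm 1 (by omega))).trans h
      · exact (inf_le _ t (hm 2 (by omega))).trans h
    have h2 : 1 / 3 ≤ kappa ((Finset.range n).image g) := by
      have hb : BddAbove (Set.range fun t : ℝ =>
          ⨅ v : ((Finset.range n).image g : Finset ℕ), nint (t * (v : ℕ))) := by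
        refine ⟨1 / 2, ?_⟩
        rintro _ ⟨t, rfl⟩
        exact (inf_le _ t (hmem 0 (by omega))).trans (abs_sub_round _)
      refine le_trans ?_ (le_ciSup hb (1 / 3))
      have : Nonempty ((Finset.range n).image g : Finset ℕ) := ⟨⟨_, hmem 0 (by omega)⟩⟩
      refine le_ciInf fun v => third _ ?_
      obtain ⟨i, -, hi⟩ := Finset.mem_image.mp v.2
      rw [← hi]
      simp only [g]; omega
    linarith

end Pool.Agent.Results.MP_64d5df_nt.ATranslateDrop
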